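import Pool.Agent.N972.P17.Defs2

/-!
# P17: the bilinear identities
-/

set_option autoImplicit false

namespace Pool.Agent.N973.P17

open Finset
open Pool.Agent.N969.P15 (V3 ep2 Ev tb tw chE psp psp2 un)
open Pool.Agent.N972.P17

/-! ### the two lattices -/

theorem ip1_nonneg (v : V3) : 0 ≤ ip1 v v := by
  unfold ip1
  nlinarith [sq_nonneg (7 * v 0 - 3 * v 1 - 2 * v 2), sq_nonneg (2 * v 1 - v 2), sq_nonneg (v 2)]

theorem ip2_nonneg (v : V3) : 0 ≤ ip2 v v := by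
  unfold ip2
  nlinarith [sq_nonneg (3 * v 0 - v 1 - v 2), sq_nonneg (2 * v 1 - v 2), sq_nonneg (v 2)]

theorem sq_le_ip1 (v : V3) (i : Fin 3) : v i ^ 2 ≤ ip1 v v := by
  unfold ip1
  fin_cases i
  · change v 0 ^ 2 ≤ _
    nlinarith [sq_nonneg (6 * v 0 - 3 * v 1 - 2 * v 2), sq_nonneg (2 * v 1 - v 2), sq_nonneg (v 2),
      sq_nonneg (v 1)]
  · change v 1 ^ 2 ≤ _
    nlinarith [sq_nonneg (7 * v 0 - 3 * v 1 - 2 * v 2), sq_nonneg (2 * v 1 - v 2), sq_nonneg (v 2),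
      sq_nonneg (v 1)]
  · change v 2 ^ 2 ≤ _
    nlinarith [sq_nonneg (7 * v 0 - 3 * v 1 - 2 * v 2), sq_nonneg (2 * v 1 - v 2), sq_nonneg (v 2),
      sq_nonneg (v 1)]

theorem sq_le_ip2 (v : V3) (i : Fin 3) : v i ^ 2 ≤ ip2 v v := by
  unfold ip2
  fin_cases i
  · change v 0 ^ 2 ≤ _
    nlinarith [sq_nonneg (2 * v 0 - v 1 - v 2), sq_nonneg (2 * v 1 - v 2), sq_nonneg (v 2),
      sq_nonneg (v 1), sq_nonneg (v 1 - v 2)]
  · change v 1 ^ 2 ≤ _
    nlinarith [sq_nonneg (3 * v 0 - v 1 - v 2), sq_nonneg (2 * v 1 - v 2), sq_nonneg (v 2),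
      sq_nonneg (v 1), sq_nonneg (v 1 - v 2)]
  · change v 2 ^ 2 ≤ _
    nlinarith [sq_nonneg (3 * v 0 - v 1 - v 2), sq_nonneg (2 * v 1 - v 2), sq_nonneg (v 2),
      sq_nonneg (v 1), sq_nonneg (v 1 - v 2)]

theorem mem_of_sq {n : ℤ} {v : V3} (f : ℤ) (hf : f = n) (h : ∀ i, v i ^ 2 ≤ f) :
    v ∈ Fintype.piFinset fun _ : Fin 3 => Icc (-n) n := by
  rw [Fintype.mem_piFinset]
  intro i
  rw [Finset.mem_Icc]
  have h1 := h i
  rw [hf] at h1
  have h2 := Int.le_self_sq (v i)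
  have h3 := Int.le_self_sq (-v i)
  constructor <;> nlinarith

theorem mem_vec1 {n : ℤ} {v : V3} : v ∈ vec1 n ↔ ip1 v v = n := by
  unfold vec1
  rw [Finset.mem_filter]
  exact ⟨fun h => h.2, fun h => ⟨mem_of_sq _ h (sq_le_ip1 v), h⟩⟩

theorem mem_vec2 {n : ℤ} {v : V3} : v ∈ vec2 n ↔ ip2 v v = n := by
  unfold vec2
  rw [Finset.mem_filter]
  exact ⟨fun h => h.2, fun h => ⟨mem_of_sq _ h (sq_le_ip2 v), h⟩⟩

theorem cs1 (v w : V3) : ip1 v w ^ 2 ≤ ip1 v v * ip1 w w := by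
  have key : ip1 v v * ip1 w w - ip1 v w ^ 2 =
      34 * (3 * (v 1 * w 2 - v 2 * w 1) ^ 2 + 2 * (v 2 * w 0 - v 0 * w 2) ^ 2 +
        2 * ((v 1 * w 2 - v 2 * w 1) + (v 2 * w 0 - v 0 * w 2)) ^ 2 +
        ((v 1 * w 2 - v 2 * w 1) + (v 0 * w 1 - v 1 * w 0)) ^ 2 +
        (v 0 * w 1 - v 1 * w 0) ^ 2 +
        2 * ((v 2 * w 0 - v 0 * w 2) * (v 0 * w 1 - v 1 * w 0))) := by
    unfold ip1
    ring
  have : 0 ≤ ip1 v v * ip1 w w - ip1 v w ^ 2 := by
    rw [key]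
    nlinarith [sq_nonneg ((v 2 * w 0 - v 0 * w 2) + (v 0 * w 1 - v 1 * w 0)),
      sq_nonneg (v 1 * w 2 - v 2 * w 1), sq_nonneg (v 2 * w 0 - v 0 * w 2),
      sq_nonneg ((v 1 * w 2 - v 2 * w 1) + (v 2 * w 0 - v 0 * w 2)),
      sq_nonneg ((v 1 * w 2 - v 2 * w 1) + (v 0 * w 1 - v 1 * w 0))]
  linarith

theorem cs2 (v w : V3) : ip2 v w ^ 2 ≤ ip2 v v * ip2 w w := by
  have key : ip2 v v * ip2 w w - ip2 v w ^ 2 =
      34 * (10 * (v 1 * w 2 - v 2 * w 1) ^ 2 +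
        ((v 1 * w 2 - v 2 * w 1) + (v 2 * w 0 - v 0 * w 2)) ^ 2 +
        ((v 1 * w 2 - v 2 * w 1) + (v 0 * w 1 - v 1 * w 0)) ^ 2 +
        ((v 2 * w 0 - v 0 * w 2) + (v 0 * w 1 - v 1 * w 0)) ^ 2) := by
    unfold ip2
    ring
  have : 0 ≤ ip2 v v * ip2 w w - ip2 v w ^ 2 := by
    rw [key]
    positivity
  linarith

/-! ### a general positive definite form on the integer vectors -/

/-- the properties of the two forms that are used -/
structure IsF (q : V3 → V3 → ℤ) : Prop where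
  nonneg : ∀ v, 0 ≤ q v v
  pos : ∀ v (i : Fin 3), v i ^ 2 ≤ q v v
  cs : ∀ v w, q v w ^ 2 ≤ q v v * q w w
  neg : ∀ v w, q v (-w) = - q v w
  neg' : ∀ v, q (-v) (-v) = q v v
  sub : ∀ (v w : V3) (k : ℤ), q (w - k • v) (w - k • v) = q w w - 2 * k * q v w + k ^ 2 * q v v
  smul : ∀ (v w : V3) (k : ℤ), q v (k • w) = k * q v w
  smul' : ∀ (v : V3) (k : ℤ), q (k • v) (k • v) = k ^ 2 * q v v

theorem isF1 : IsF ip1 where
  nonneg := ip1_nonneg
  pos := sq_le_ip1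
  cs := cs1
  neg := by intro v w; simp only [ip1, Pi.neg_apply]; ring
  neg' := by intro v; simp only [ip1, Pi.neg_apply]; ring
  sub := by intro v w k; simp only [ip1, Pi.sub_apply, Pi.smul_apply, smul_eq_mul]; ring
  smul := by intro v w k; simp only [ip1, Pi.smul_apply, smul_eq_mul]; ring
  smul' := by intro v k; simp only [ip1, Pi.smul_apply, smul_eq_mul]; ring

theorem isF2 : IsF ip2 where
  nonneg := ip2_nonneg
  pos := sq_le_ip2
  cs := cs2
  neg := by intro v w; simp only [ip2, Pi.neg_apply]; ring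
  neg' := by intro v; simp only [ip2, Pi.neg_apply]; ring
  sub := by intro v w k; simp only [ip2, Pi.sub_apply, Pi.smul_apply, smul_eq_mul]; ring
  smul := by intro v w k; simp only [ip2, Pi.smul_apply, smul_eq_mul]; ring
  smul' := by intro v k; simp only [ip2, Pi.smul_apply, smul_eq_mul]; ring

section gen

variable {q : V3 → V3 → ℤ} (hq : IsF q)
include hq

theorem eq_of_b {n k : ℤ} {v w : V3} (hv : q v v = n) (hw : q w w = k ^ 2 * n)
    (h : q v w = k * n) : w = k • v := by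
  have h1 := hq.sub v w k
  rw [hv, hw, h] at h1
  have h2 : q (w - k • v) (w - k • v) = 0 := by rw [h1]; ring
  have h3 : ∀ i, (w - k • v) i = 0 := by
    intro i
    have := hq.pos (w - k • v) i
    rw [h2] at this
    nlinarith
  funext i
  have := h3 i
  rw [Pi.sub_apply] at this
  linarith

/-- the pairs which are proportional -/
theorem card_end {n k : ℤ} {A B : Finset V3} (hA : ∀ v, v ∈ A ↔ q v v = n)
    (hB : ∀ v, v ∈ B ↔ q v v = k ^ 2 * n) :
    ((A ×ˢ B).filter fun z => q z.1 z.2 = k * n).card = A.card := by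
  symm
  refine Finset.card_bij' (fun v _ => (v, k • v)) (fun z _ => z.1) ?_ ?_ ?_ ?_
  · intro v hv
    rw [Finset.mem_filter, Finset.mem_product]
    have h1 := (hA v).1 hv
    refine ⟨⟨hv, ?_⟩, ?_⟩
    · rw [hB, hq.smul', h1]
    · change q v (k • v) = k * n
      rw [hq.smul, h1]
  · intro z hz
    rw [Finset.mem_filter, Finset.mem_product] at hz
    exact hz.1.1
  · intro v _
    rfl
  · rintro ⟨v, w⟩ hz
    rw [Finset.mem_filter, Finset.mem_product] at hz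
    obtain ⟨⟨h1, h2⟩, h3⟩ := hz
    have h4 := eq_of_b hq ((hA v).1 h1) ((hB w).1 h2) h3
    simp only at h4 ⊢
    rw [h4]

theorem card_neg {A B : Finset V3} (hB : ∀ v, v ∈ B → -v ∈ B) (b : ℤ) :
    ((A ×ˢ B).filter fun z => q z.1 z.2 = -b).card =
      ((A ×ˢ B).filter fun z => q z.1 z.2 = b).card := by
  refine Finset.card_bij' (fun z _ => (z.1, -z.2)) (fun z _ => (z.1, -z.2)) ?_ ?_ ?_ ?_
  · rintro ⟨v, w⟩ h
    rw [Finset.mem_filter, Finset.mem_product] at h ⊢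
    simp only at h ⊢
    rw [hq.neg]
    exact ⟨⟨h.1.1, hB _ h.1.2⟩, by rw [h.2, neg_neg]⟩
  · rintro ⟨v, w⟩ h
    rw [Finset.mem_filter, Finset.mem_product] at h ⊢
    simp only at h ⊢
    rw [hq.neg]
    exact ⟨⟨h.1.1, hB _ h.1.2⟩, by rw [h.2]⟩
  · rintro ⟨v, w⟩ _
    simp
  · rintro ⟨v, w⟩ _
    simp

theorem card_fib {n n2 N : ℤ} {A B : Finset V3} (hA : ∀ v, v ∈ A ↔ q v v = n)
    (hB : ∀ v, v ∈ B ↔ q v v = n2) (hN : n * n2 = N ^ 2) (hN0 : 0 ≤ N) :
    ((A.card * B.card : ℕ) : ℤ) =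
      ∑ b ∈ Icc (-N) N, (((A ×ˢ B).filter fun z => q z.1 z.2 = b).card : ℤ) := by
  rw [← Finset.card_product, Finset.card_eq_sum_card_fiberwise (f := fun z : V3 × V3 => q z.1 z.2)
    (t := Icc (-N) N)]
  · push_cast
    rfl
  · intro z hz
    rw [Finset.mem_coe, Finset.mem_product, hA, hB] at hz
    have h4 := hq.cs z.1 z.2
    rw [hz.1, hz.2, hN] at h4
    rw [Finset.mem_coe, Finset.mem_Icc]
    exact abs_le.1 (abs_le_of_sq_le_sq h4 hN0)

end gen

/-! ### the sum over the inner products -/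

theorem sum_ends (N : ℕ) (hN : 0 < N) (P : ℤ → ℤ) :
    ∑ b ∈ Icc (-(N : ℤ)) N, P b = P N + P (-N) + ∑ b ∈ Ioo (-(N : ℤ)) N, P b := by
  have h1 : Icc (-(N : ℤ)) N = insert (N : ℤ) (insert (-(N : ℤ)) (Ioo (-(N : ℤ)) N)) := by
    ext b
    rw [Finset.mem_insert, Finset.mem_insert, Finset.mem_Icc, Finset.mem_Ioo]
    omega
  rw [h1, Finset.sum_insert, Finset.sum_insert]
  · ring
  · rw [Finset.mem_Ioo]; omega
  · rw [Finset.mem_insert, Finset.mem_Ioo]; omega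

/-- the sum over the inner products, with the prime `l` not dividing `N` -/
theorem sum_mid {l N : ℕ} (hl : l.Prime) (hl2 : l ≠ 2) (hlN : ¬ l ∣ N) (P : ℤ → ℤ)
    (hs : ∀ b, P (-b) = P b)
    (h0 : ∀ b : ℤ, -(N : ℤ) < b → b < N → ¬ (l : ℤ) ∣ (N : ℤ) ^ 2 - b ^ 2 → P b = 0)
    (h2 : ∀ b : ℤ, -(N : ℤ) < b → b < N → ¬ (2 : ℤ) ∣ (N : ℤ) - b → P b = 0) :
    ∑ b ∈ Ioo (-(N : ℤ)) N, P b =
      2 * ∑ T ∈ (range N).filter (fun T => 0 < T ∧ l ∣ T), P ((N : ℤ) - 2 * T) := by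
  have hlp : Prime (l : ℤ) := Nat.prime_iff_prime_int.1 hl
  have a1 : ∑ b ∈ Ioo (-(N : ℤ)) N, P b =
      ∑ b ∈ (Ioo (-(N : ℤ)) N).filter (fun b => (l : ℤ) ∣ N - b), P b +
      ∑ b ∈ (Ioo (-(N : ℤ)) N).filter (fun b => (l : ℤ) ∣ N + b), P b := by
    rw [← Finset.sum_union]
    · symm
      refine Finset.sum_subset ?_ ?_
      · intro b hb
        rw [Finset.mem_union, Finset.mem_filter, Finset.mem_filter] at hb
        rcases hb with hb | hb
        · exact hb.1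
        · exact hb.1
      · intro b hb hb'
        rw [Finset.mem_union, Finset.mem_filter, Finset.mem_filter] at hb'
        push Not at hb'
        have hb2 := Finset.mem_Ioo.1 hb
        refine h0 b hb2.1 hb2.2 ?_
        intro h
        have e : (N : ℤ) ^ 2 - b ^ 2 = (N - b) * (N + b) := by ring
        rw [e] at h
        rcases hlp.dvd_or_dvd h with h | h
        · exact hb'.1 hb h
        · exact hb'.2 hb h
    · rw [Finset.disjoint_filter]
      intro b _ h3 h4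
      apply hlN
      have h5 := dvd_add h3 h4
      have e : ((N : ℤ) - b) + (N + b) = 2 * N := by ring
      rw [e] at h5
      rcases hlp.dvd_or_dvd h5 with h6 | h6
      · exfalso
        have h7 : l ∣ 2 := by exact_mod_cast h6
        exact hl2 ((Nat.prime_dvd_prime_iff_eq hl Nat.prime_two).1 h7)
      · exact_mod_cast h6
  have a2 : ∑ b ∈ (Ioo (-(N : ℤ)) N).filter (fun b => (l : ℤ) ∣ N + b), P b =
      ∑ b ∈ (Ioo (-(N : ℤ)) N).filter (fun b => (l : ℤ) ∣ N - b), P b := by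
    refine Finset.sum_bij' (fun b _ => -b) (fun b _ => -b) ?_ ?_ ?_ ?_ ?_
    · intro b hb
      rw [Finset.mem_filter, Finset.mem_Ioo] at hb ⊢
      refine ⟨by omega, ?_⟩
      rw [sub_neg_eq_add]
      exact hb.2
    · intro b hb
      rw [Finset.mem_filter, Finset.mem_Ioo] at hb ⊢
      exact ⟨by omega, hb.2⟩
    · intro b _; ring
    · intro b _; ring
    · intro b _; rw [hs]
  have a3 : ∑ b ∈ (Ioo (-(N : ℤ)) N).filter (fun b => (l : ℤ) ∣ N - b), P b =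
      ∑ T ∈ (range N).filter (fun T => 0 < T ∧ l ∣ T), P ((N : ℤ) - 2 * T) := by
    symm
    refine Finset.sum_of_injOn (fun T : ℕ => (N : ℤ) - 2 * T) ?_ ?_ ?_ ?_
    · intro a _ b _ h
      have h' : (N : ℤ) - 2 * a = N - 2 * b := h
      omega
    · intro T hT
      rw [Finset.mem_coe, Finset.mem_filter, Finset.mem_range] at hT
      rw [Finset.mem_coe, Finset.mem_filter, Finset.mem_Ioo]
      obtain ⟨t1, t2, t3⟩ := hT
      refine ⟨by constructor <;> (simp only; omega), ?_⟩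
      obtain ⟨c, rfl⟩ := t3
      exact ⟨2 * c, by push_cast; ring⟩
    · intro b hb hb'
      rw [Finset.mem_filter, Finset.mem_Ioo] at hb
      refine h2 b hb.1.1 hb.1.2 ?_
      intro h
      apply hb'
      obtain ⟨c, hc⟩ := h
      refine ⟨c.toNat, ?_, ?_⟩
      · rw [Finset.mem_coe, Finset.mem_filter, Finset.mem_range]
        refine ⟨by omega, by omega, ?_⟩
        have h3 := hb.2
        rw [hc] at h3
        rcases hlp.dvd_or_dvd h3 with h6 | h6
        · exfalso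
          have h7 : l ∣ 2 := by exact_mod_cast h6
          exact hl2 ((Nat.prime_dvd_prime_iff_eq hl Nat.prime_two).1 h7)
        · have h8 : ((c.toNat : ℕ) : ℤ) = c := by omega
          rw [← h8] at h6
          exact_mod_cast h6
      · simp only
        omega
    · intro T _
      rfl
  rw [a1, a2, a3]
  ring

/-- **the bilinear identities** in general -/
theorem bil_core {n k : ℕ} (hn : 0 < n) (hk : 0 < k) (h17 : ¬ 17 ∣ k * n) (L : ℤ → ℕ → ℤ)
    (hC : ∀ (b : ℤ) (D : ℕ), 0 < D → (D : ℤ) = n * (k ^ 2 * n : ℕ) - b ^ 2 →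
      (3 * cp1 n b (k ^ 2 * n : ℕ) + cp2 n b (k ^ 2 * n : ℕ) : ℤ) = 6 * L b D)
    (hz : ∀ (b : ℤ) (D : ℕ), ¬ (2 : ℤ) ∣ (k * n : ℕ) - b → 0 < D →
      (D : ℤ) = n * (k ^ 2 * n : ℕ) - b ^ 2 → L b D = 0)
    (hz17 : ∀ (b : ℤ) (D : ℕ), ¬ 17 ∣ D → L b D = 0) (hL0 : L (k * n : ℕ) 0 = 0) :
    48 * ∑ T ∈ (range (k * n)).filter (fun T => 17 ∣ T),
      L (((k * n : ℕ) : ℤ) - 2 * T) (4 * (k * n - T) * T) =
      rr (k ^ 2 * n : ℕ) * rr n + 3 * (cc (k ^ 2 * n : ℕ) * cc n) - 8 * rr n := by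
  set N : ℕ := k * n with hNdef
  set n2 : ℕ := k ^ 2 * n with hn2
  have hN0 : 0 < N := Nat.mul_pos hk hn
  have hNN : (n : ℤ) * n2 = (N : ℤ) ^ 2 := by
    rw [hNdef, hn2]; push_cast; ring
  have hB : ((n2 : ℕ) : ℤ) = (k : ℤ) ^ 2 * n := by rw [hn2]; push_cast; ring
  have hNk : ((N : ℕ) : ℤ) = (k : ℤ) * n := by rw [hNdef]; push_cast; ring
  set P : ℤ → ℤ := fun b => 3 * (cp1 n b n2 : ℤ) + cp2 n b n2 with hP
  have f1 := card_fib isF1 (n := n) (n2 := n2) (N := N) (A := vec1 n) (B := vec1 n2)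
    (fun _ => mem_vec1) (fun _ => mem_vec1) hNN (by omega)
  have f2 := card_fib isF2 (n := n) (n2 := n2) (N := N) (A := vec2 n) (B := vec2 n2)
    (fun _ => mem_vec2) (fun _ => mem_vec2) hNN (by omega)
  have f3 : 3 * ((vec1 n).card * (vec1 n2).card : ℤ) + (vec2 n).card * (vec2 n2).card =
      ∑ b ∈ Icc (-(N : ℤ)) N, P b := by
    rw [hP, Finset.sum_add_distrib, ← Finset.mul_sum]
    unfold cp1 cp2
    rw [← f1, ← f2]
    push_cast
    ring
  have s1 : ∀ b, (cp1 n (-b) n2) = cp1 n b n2 := fun b =>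
    card_neg isF1 (fun v hv => by rw [mem_vec1] at hv ⊢; rw [isF1.neg', hv]) b
  have s2 : ∀ b, (cp2 n (-b) n2) = cp2 n b n2 := fun b =>
    card_neg isF2 (fun v hv => by rw [mem_vec2] at hv ⊢; rw [isF2.neg', hv]) b
  have s3 : ∀ b, P (-b) = P b := by
    intro b
    simp only [hP]
    rw [s1, s2]
  have e1 : cp1 n N n2 = (vec1 n).card := by
    unfold cp1
    rw [hNk, hB]
    exact card_end isF1 (fun _ => mem_vec1) (fun _ => mem_vec1)
  have e2 : cp2 n N n2 = (vec2 n).card := by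
    unfold cp2
    rw [hNk, hB]
    exact card_end isF2 (fun _ => mem_vec2) (fun _ => mem_vec2)
  have e3 : P N = rr n := by
    simp only [hP]
    rw [e1, e2]
    rfl
  have hD : ∀ b : ℤ, -(N : ℤ) < b → b < N → ∃ D : ℕ, 0 < D ∧ (D : ℤ) = n * n2 - b ^ 2 := by
    intro b h1 h2
    have hpos : 0 < (N : ℤ) ^ 2 - b ^ 2 := by
      have e : (N : ℤ) ^ 2 - b ^ 2 = (N - b) * (N + b) := by ring
      rw [e]
      exact mul_pos (by omega) (by omega)
    refine ⟨((N : ℤ) ^ 2 - b ^ 2).toNat, by omega, ?_⟩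
    rw [Int.toNat_of_nonneg hpos.le, hNN]
  have m1 : ∑ b ∈ Ioo (-(N : ℤ)) N, P b =
      2 * ∑ T ∈ (range N).filter (fun T => 0 < T ∧ 17 ∣ T), P ((N : ℤ) - 2 * T) := by
    refine sum_mid (by norm_num) (by norm_num) h17 P s3 ?_ ?_
    · intro b h1 h2 h3
      obtain ⟨D, hD0, hDD⟩ := hD b h1 h2
      simp only [hP]
      rw [hC b D hD0 hDD, hz17 b D, mul_zero]
      intro h
      apply h3
      rw [← hNN, ← hDD]
      exact_mod_cast h
    · intro b h1 h2 h3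
      obtain ⟨D, hD0, hDD⟩ := hD b h1 h2
      simp only [hP]
      rw [hC b D hD0 hDD, hz b D h3 hD0 hDD, mul_zero]
  have m2 : ∑ T ∈ (range N).filter (fun T => 0 < T ∧ 17 ∣ T), P ((N : ℤ) - 2 * T) =
      6 * ∑ T ∈ (range N).filter (fun T => 17 ∣ T), L ((N : ℤ) - 2 * T) (4 * (N - T) * T) := by
    rw [Finset.mul_sum]
    refine Finset.sum_subset_zero_on_sdiff ?_ ?_ ?_
    · intro T hT
      rw [Finset.mem_filter] at hT ⊢
      exact ⟨hT.1, hT.2.2⟩
    · intro T hT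
      rw [Finset.mem_sdiff, Finset.mem_filter, Finset.mem_filter] at hT
      have : T = 0 := by
        by_contra h
        exact hT.2 ⟨hT.1.1, Nat.pos_of_ne_zero h, hT.1.2⟩
      subst this
      have e : (N : ℤ) - 2 * ((0 : ℕ) : ℤ) = N := by push_cast; ring
      rw [mul_zero, e, hL0, mul_zero]
    · intro T hT
      rw [Finset.mem_filter, Finset.mem_range] at hT
      refine hC _ _ (Nat.mul_pos (by omega) hT.2.1) ?_
      rw [hNN]
      push_cast [Nat.cast_sub hT.1.le]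
      ring
  rw [sum_ends N hN0, s3, e3, m1, m2] at f3
  have r1 : rr n2 * rr n + 3 * (cc n2 * cc n) =
      4 * (3 * ((vec1 n).card * (vec1 n2).card : ℤ) + (vec2 n).card * (vec2 n2).card) := by
    unfold rr cc
    ring
  rw [r1, f3]
  ring

theorem loc_odd (n D : ℕ) (h : ¬ 2 ∣ D) : loc n D = 0 := by
  unfold loc tw
  rw [Nat.factorization_eq_zero_of_not_dvd h]
  simp

theorem loc_17 (n D : ℕ) (h : ¬ 17 ∣ D) : loc n D = 0 := by
  unfold loc
  rw [Nat.factorization_eq_zero_of_not_dvd h]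
  simp

theorem locE_17 (n : ℕ) (b : ℤ) (D : ℕ) (h : ¬ 17 ∣ D) : locE n b D = 0 := by
  unfold locE
  rw [Nat.factorization_eq_zero_of_not_dvd h]
  simp

theorem tb_odd {b : ℤ} (h : ¬ (2 : ℤ) ∣ b) : tb b = 0 := by
  unfold tb
  rw [if_neg (by omega), if_neg (by omega)]

theorem locE_odd (n : ℕ) (b : ℤ) (D : ℕ) (h : ¬ (2 : ℤ) ∣ b) : locE n b D = 0 := by
  unfold locE
  rw [tb_odd h]
  simp

theorem n17 {n : ℕ} (h : jacobiSym n 17 = -1) : ¬ 17 ∣ n := by
  rintro ⟨m, rfl⟩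
  rw [jacobiSym.mod_left] at h
  push_cast at h
  rw [Int.mul_emod_right] at h
  norm_num at h

theorem bil_odd (hPC : S_PC) {n k : ℕ} (hn : Cm n) (hk : k = 1 ∨ k = 2) :
    48 * ∑ T ∈ (range (k * n)).filter (fun T => 17 ∣ T), loc n (4 * (k * n - T) * T) =
      rr (k ^ 2 * n : ℕ) * rr n + 3 * (cc (k ^ 2 * n : ℕ) * cc n) - 8 * rr n := by
  obtain ⟨hs, h4, h17⟩ := hn
  have hp : 0 < n := by omega
  have h17' := n17 h17
  refine bil_core hp (by omega) ?_ (fun _ D => loc n D) ?_ ?_ ?_ ?_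
  · rcases hk with rfl | rfl
    · rwa [one_mul]
    · rw [Nat.Prime.dvd_mul (by norm_num)]
      rintro (h | h)
      · omega
      · exact h17' h
  · intro b D hD hDD
    exact hPC n _ b D hs h4 h17' hD hDD
  · intro b D hb hD hDD
    refine loc_odd n D ?_
    intro h
    have h1 : (2 : ℤ) ∣ (D : ℤ) := by exact_mod_cast h
    have e : (n : ℤ) * (k ^ 2 * n : ℕ) - b ^ 2 = ((k * n : ℕ) - b) * ((k * n : ℕ) + b) := by
      push_cast; ring
    rw [hDD, e] at h1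
    rcases Int.Prime.dvd_mul' (p := 2) (by norm_num) h1 with h | h
    · push_cast at h hb; omega
    · push_cast at h hb; omega
  · intro b D h
    exact loc_17 n D h
  · simp [loc]

theorem bil_even (hPC : S_PCE) {n k : ℕ} (hn : Cme n) (hk : k = 1 ∨ k = 2) :
    48 * ∑ T ∈ (range (k * n)).filter (fun T => 17 ∣ T),
      locE n (((k * n : ℕ) : ℤ) - 2 * T) (4 * (k * n - T) * T) =
      rr (k ^ 2 * n : ℕ) * rr n + 3 * (cc (k ^ 2 * n : ℕ) * cc n) - 8 * rr n := by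
  obtain ⟨hev, h17⟩ := hn
  obtain ⟨m, rfl, hs, hm⟩ := id hev
  have hp : 0 < 4 * m := by omega
  have h17' := n17 h17
  refine bil_core hp (by omega) ?_ (locE (4 * m)) ?_ ?_ ?_ ?_
  · rcases hk with rfl | rfl
    · rwa [one_mul]
    · rw [Nat.Prime.dvd_mul (by norm_num)]
      rintro (h | h)
      · omega
      · exact h17' h
  · intro b D hD hDD
    refine hPC (4 * m) _ b D hev h17 ?_ hD hDD
    exact Dvd.dvd.mul_left (dvd_mul_right 4 m) _
  · intro b D hb _ _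
    refine locE_odd _ b D ?_
    intro h
    apply hb
    have h2 : (2 : ℤ) ∣ ((k * (4 * m) : ℕ) : ℤ) := ⟨(k * (2 * m) : ℕ), by push_cast; ring⟩
    exact dvd_sub h2 h
  · intro b D h
    exact locE_17 (4 * m) b D h
  · simp [locE]

/-- **BIL1** -/
theorem t_BIL1 (hPC : S_PC) : S_BIL1 := by
  intro n hn
  have h := bil_odd hPC hn (Or.inl rfl)
  simp only [one_mul, one_pow] at h
  unfold AA
  rw [h]
  ring

/-- **BIL2** -/
theorem t_BIL2 (hPC : S_PC) : S_BIL2 := by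
  intro n hn
  have h := bil_odd hPC hn (Or.inr rfl)
  unfold AA
  rw [h]
  push_cast
  norm_num

/-- the weights of the even norms -/
theorem locE_sym (n N T : ℕ) (hT : T < N) (D : ℕ) :
    locE n ((T : ℤ) - ((N - T : ℕ) : ℤ)) D = locE n ((N : ℤ) - 2 * T) D := by
  have hb : tb ((T : ℤ) - ((N - T : ℕ) : ℤ)) = tb ((N : ℤ) - 2 * T) := by
    have e : (T : ℤ) - ((N - T : ℕ) : ℤ) = -((N : ℤ) - 2 * T) := by
      rw [Nat.cast_sub hT.le]
      ring
    rw [e]
    unfold tb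
    have q1 : (-((N : ℤ) - 2 * T)) % 4 = 0 ↔ ((N : ℤ) - 2 * T) % 4 = 0 := by omega
    have q2 : (-((N : ℤ) - 2 * T)) % 4 = 2 ↔ ((N : ℤ) - 2 * T) % 4 = 2 := by omega
    simp only [q1, q2]
  unfold locE
  rw [hb]

theorem AAe_eq (n N : ℕ) : AAe n N = ∑ T ∈ (range N).filter (fun T => 17 ∣ T),
    locE n ((N : ℤ) - 2 * T) (4 * (N - T) * T) := by
  unfold AAe
  refine Finset.sum_congr rfl fun T hT => ?_
  rw [Finset.mem_filter, Finset.mem_range] at hT
  exact locE_sym n N T hT.1 _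

/-- **BIL1E** -/
theorem t_BIL1E (hPC : S_PCE) : S_BIL1E := by
  intro n hn
  have h := bil_even hPC hn (Or.inl rfl)
  simp only [one_mul, one_pow] at h
  rw [AAe_eq, h]
  ring

/-- **BIL2E** -/
theorem t_BIL2E (hPC : S_PCE) : S_BIL2E := by
  intro n hn
  have h := bil_even hPC hn (Or.inr rfl)
  rw [AAe_eq, h]
  push_cast
  norm_num

/-! ### the diagonal identities -/

theorem WU_eq (h1 : Pool.Agent.N969.P15.S_C1B) {n N : ℕ} (hs : Squarefree n) (h4 : n % 4 = 3)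
    (hN : N = n ∨ N = 2 * n) : WU n N = WT n N := by
  unfold WU WT WW
  refine Finset.sum_congr rfl fun T hT => ?_
  rw [mem_filter, mem_range] at hT
  refine Finset.sum_congr rfl fun a ha => ?_
  refine Finset.sum_congr rfl fun a' ha' => ?_
  have h3 : a ∣ N - T := Nat.dvd_of_mem_divisors ha
  have h5 : a' ∣ T := Nat.dvd_of_mem_divisors (Finset.mem_filter.1 ha').1
  refine h1 n hs h4 N hN a a' (T / a') ((N - T) / a) ?_
  rw [Nat.mul_div_cancel' h3, Nat.mul_div_cancel' h5]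
  omega

theorem WUe_eq (h1 : Pool.Agent.N969.P15.S_C1BE) {n N : ℕ} (hs : Ev n)
    (hN : N = n ∨ N = 2 * n) : WUe n N = WTe n N := by
  unfold WUe WTe WWe
  refine Finset.sum_congr rfl fun T hT => ?_
  rw [mem_filter, mem_range] at hT
  refine Finset.sum_congr rfl fun a ha => ?_
  refine Finset.sum_congr rfl fun a' ha' => ?_
  have hT0 : 0 < T := by
    rcases Nat.eq_zero_or_pos T with rfl | h
    · simp at ha'
    · exact h
  have h3 : a ∣ N - T := Nat.dvd_of_mem_divisors ha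
  have h5 : a' ∣ T := Nat.dvd_of_mem_divisors (Finset.mem_filter.1 ha').1
  have p1 : 0 < a := Nat.pos_of_dvd_of_pos h3 (by omega)
  have p2 : 0 < a' := Nat.pos_of_dvd_of_pos h5 hT0
  refine h1 n hs N hN a a' (T / a') ((N - T) / a) p1 p2 (Nat.div_pos (Nat.le_of_dvd hT0 h5) p2)
    (Nat.div_pos (Nat.le_of_dvd (by omega) h3) p1) ?_
  rw [Nat.mul_div_cancel' h3, Nat.mul_div_cancel' h5]
  omega

theorem WT1 (h2 : S_C2A) {n : ℕ} (hn : Cm n) : WT n n = - AA n n := by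
  unfold WT AA
  rw [← Finset.sum_neg_distrib]
  refine Finset.sum_congr rfl fun T hT => ?_
  rw [mem_filter, mem_range] at hT
  rcases Nat.eq_zero_or_pos T with rfl | h
  · simp [WW, loc]
  · exact h2 n hn T h hT.1 hT.2

theorem WT2 (h2 : S_C2B) {n : ℕ} (hn : Cm n) :
    WT n (2 * n) = - (AA n (2 * n) + ep2 n * AA n n) := by
  have e1 : WT n (2 * n) = ∑ T ∈ (range (2 * n)).filter (fun T => 17 ∣ T),
      (- (loc n (4 * (2 * n - T) * T)) +
        - (if 2 ∣ T then ep2 n * loc n ((2 * n - T) * T) else 0)) := by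
    unfold WT
    refine Finset.sum_congr rfl fun T hT => ?_
    rw [mem_filter, mem_range] at hT
    rcases Nat.eq_zero_or_pos T with rfl | h
    · simp [WW, loc]
    · rw [h2 n hn T h hT.1 hT.2]
      ring
  have e2 : ∑ T ∈ (range (2 * n)).filter (fun T => 17 ∣ T),
      (if 2 ∣ T then ep2 n * loc n ((2 * n - T) * T) else 0) = ep2 n * AA n n := by
    rw [← Finset.sum_filter]
    unfold AA
    rw [Finset.mul_sum]
    symm
    refine Finset.sum_nbij (fun T : ℕ => 2 * T) ?_ ?_ ?_ ?_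
    · intro T hT
      rw [mem_filter, mem_range] at hT
      rw [mem_filter, mem_filter, mem_range]
      omega
    · intro T _ T' _ h
      have h' : 2 * T = 2 * T' := h
      omega
    · intro T hT
      rw [mem_coe, mem_filter, mem_filter, mem_range] at hT
      obtain ⟨⟨b1, b2⟩, k, hk⟩ := hT
      refine ⟨k, ?_, hk.symm⟩
      rw [mem_coe, mem_filter, mem_range]
      omega
    · intro T hT
      rw [mem_filter, mem_range] at hT
      have h6 : 4 * (n - T) * T = (2 * n - 2 * T) * (2 * T) := by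
        have h7 : 2 * n - 2 * T = 2 * (n - T) := by omega
        rw [h7]
        ring
      rw [h6]
  rw [e1, Finset.sum_add_distrib, Finset.sum_neg_distrib, Finset.sum_neg_distrib, e2]
  unfold AA
  ring

theorem WTE (h2 : S_C2E) {n : ℕ} (hn : Cme n) (N : ℕ) (hN : N = n ∨ N = 2 * n) :
    WTe n N = - AAe n N := by
  unfold WTe AAe
  rw [← Finset.sum_neg_distrib]
  refine Finset.sum_congr rfl fun T hT => ?_
  rw [mem_filter, mem_range] at hT
  rcases Nat.eq_zero_or_pos T with rfl | h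
  · simp [WWe, locE]
  · exact h2 n hn N hN T h hT.1 hT.2

/-- **DIAG** -/
theorem t_DIAG (h1a : S_C1A) (h1b : Pool.Agent.N969.P15.S_C1B) (h2a : S_C2A) (h2b : S_C2B)
    (hPC : S_PC) (hHE : S_HE2) (hC : S_CNF) : S_DIAG := by
  intro n hn
  have k1 := t_BIL1 hPC n hn
  have k2 := t_BIL2 hPC n hn
  have k6 := hC n hn
  obtain ⟨k3, k4⟩ := hHE n hn.2.1 (n17 hn.2.2)
  rw [h1a n hn, WU_eq h1b hn.1 hn.2.1 (Or.inr rfl), WU_eq h1b hn.1 hn.2.1 (Or.inl rfl),
    WT1 h2a hn, WT2 h2b hn]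
  rw [k3, k4] at k2
  generalize ∑ u ∈ (range n).filter (fun u => 2 * u < n), jacobiSym u n = Z at k6 ⊢
  have k7 : 12 * (2 * (2 * (-(AA n (2 * n) + ep2 n * AA n n) - 3 * -AA n n)) + 4 * Z) =
      12 * cc n ^ 2 := by
    linear_combination (3 - ep2 n) * k1 - k2 + 8 * k6
  linarith

/-- **DIAGE** -/
theorem t_DIAGE (h1a : S_C1AE) (h1b : Pool.Agent.N969.P15.S_C1BE) (h2 : S_C2E)
    (hPC : S_PCE) (hHE : S_HE2E) (hC : S_CNFE) : S_DIAGE := by
  intro n hn
  have k1 := t_BIL1E hPC n hn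
  have k2 := t_BIL2E hPC n hn
  have k6 := hC n hn
  rw [h1a n hn, WUe_eq h1b hn.1 (Or.inr rfl), WUe_eq h1b hn.1 (Or.inl rfl),
    WTE h2 hn _ (Or.inr rfl), WTE h2 hn _ (Or.inl rfl)]
  generalize ∑ u ∈ (range n).filter (fun u => 2 * u < n), chE n u = Z at k6 ⊢
  generalize AAe n n = S1 at k1 ⊢
  generalize AAe n (2 * n) = S2 at k2 ⊢
  have h17 := n17 hn.2
  obtain ⟨m, rfl, hs, hm⟩ := hn.1
  obtain ⟨k3, k4⟩ := hHE m hm (by omega)
  have e16 : 4 * ((4 * m : ℕ) : ℤ) = 16 * (m : ℤ) := by push_cast; ring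
  have e4 : ((4 * m : ℕ) : ℤ) = 4 * (m : ℤ) := by push_cast; ring
  rw [e16, e4, k3, k4] at k2
  rw [e4] at k1 k6 ⊢
  have k7 : 12 * (2 * (2 * (-S2 - 3 * -S1)) + 4 * Z) = 12 * cc (4 * m) ^ 2 := by
    linear_combination 3 * k1 - k2 + 8 * k6
  linarith

end Pool.Agent.N973.P17
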