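import Pool.Agent.N972.P17.Defs3
import Pool.Agent.N973.P17.BIL

/-!
# P17: the bilinear identities and the diagonal identities for `17 ∣ n`
-/

set_option autoImplicit false

namespace Pool.Agent.N973.P17

open Finset
open Pool.Agent.N969.P15 (V3 ep2 Ev tb tw chE psp psp2 un)
open Pool.Agent.N972.P17

/-- the sum over the inner products, with the prime `l` dividing `N` -/
theorem sum_midR {l N : ℕ} (hl : l.Prime) (hl2 : l ≠ 2) (hlN : l ∣ N) (P : ℤ → ℤ)
    (h0 : ∀ b : ℤ, -(N : ℤ) < b → b < N → ¬ (l : ℤ) ∣ (N : ℤ) ^ 2 - b ^ 2 → P b = 0)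
    (h2 : ∀ b : ℤ, -(N : ℤ) < b → b < N → ¬ (2 : ℤ) ∣ (N : ℤ) - b → P b = 0) :
    ∑ b ∈ Ioo (-(N : ℤ)) N, P b =
      ∑ T ∈ (range N).filter (fun T => 0 < T ∧ l ∣ T), P ((N : ℤ) - 2 * T) := by
  have hlp : Prime (l : ℤ) := Nat.prime_iff_prime_int.1 hl
  have hlN' : (l : ℤ) ∣ N := by exact_mod_cast hlN
  have a0 : ∑ b ∈ Ioo (-(N : ℤ)) N, P b =
      ∑ b ∈ (Ioo (-(N : ℤ)) N).filter (fun b => (l : ℤ) ∣ N - b), P b := by
    symm
    refine Finset.sum_subset (Finset.filter_subset _ _) ?_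
    intro b hb hb'
    rw [Finset.mem_filter] at hb'
    have hb2 := Finset.mem_Ioo.1 hb
    refine h0 b hb2.1 hb2.2 ?_
    intro h
    apply hb'
    refine ⟨hb, ?_⟩
    have e : (N : ℤ) ^ 2 - b ^ 2 = (N - b) * (N + b) := by ring
    rw [e] at h
    rcases hlp.dvd_or_dvd h with h | h
    · exact h
    · have e2 : (N : ℤ) - b = 2 * N - (N + b) := by ring
      rw [e2]
      exact dvd_sub (Dvd.dvd.mul_left hlN' 2) h
  rw [a0]
  symm
  refine Finset.sum_of_injOn (fun T : ℕ => (N : ℤ) - 2 * T) ?_ ?_ ?_ ?_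
  · intro a _ b _ h
    have h' : (N : ℤ) - 2 * a = N - 2 * b := h
    omega
  · intro T hT
    rw [Finset.mem_coe, Finset.mem_filter, Finset.mem_range] at hT
    rw [Finset.mem_coe, Finset.mem_filter, Finset.mem_Ioo]
    obtain ⟨t1, t2, t3⟩ := hT
    refine ⟨by constructor <;> (simp only; omega), ?_⟩
    obtain ⟨c, rfl⟩ := t3
    exact ⟨2 * c, by push_cast; ring⟩
  · intro b hb hb'
    rw [Finset.mem_filter, Finset.mem_Ioo] at hb
    refine h2 b hb.1.1 hb.1.2 ?_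
    intro h
    apply hb'
    obtain ⟨c, hc⟩ := h
    refine ⟨c.toNat, ?_, ?_⟩
    · rw [Finset.mem_coe, Finset.mem_filter, Finset.mem_range]
      refine ⟨by omega, by omega, ?_⟩
      have h3 := hb.2
      rw [hc] at h3
      rcases hlp.dvd_or_dvd h3 with h6 | h6
      · exfalso
        have h7 : l ∣ 2 := by exact_mod_cast h6
        exact hl2 ((Nat.prime_dvd_prime_iff_eq hl Nat.prime_two).1 h7)
      · have h8 : ((c.toNat : ℕ) : ℤ) = c := by omega
        rw [← h8] at h6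
        exact_mod_cast h6
    · simp only
      omega
  · intro T _
    rfl

/-- **the bilinear identities** in general, `17 ∣ k n` -/
theorem bil_coreR {n k : ℕ} (hn : 0 < n) (hk : 0 < k) (h17 : 17 ∣ k * n) (L : ℤ → ℕ → ℤ)
    (hC : ∀ (b : ℤ) (D : ℕ), 0 < D → (D : ℤ) = n * (k ^ 2 * n : ℕ) - b ^ 2 →
      (3 * cp1 n b (k ^ 2 * n : ℕ) + cp2 n b (k ^ 2 * n : ℕ) : ℤ) = 6 * L b D)
    (hz : ∀ (b : ℤ) (D : ℕ), ¬ (2 : ℤ) ∣ (k * n : ℕ) - b → 0 < D →
      (D : ℤ) = n * (k ^ 2 * n : ℕ) - b ^ 2 → L b D = 0)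
    (hz17 : ∀ (b : ℤ) (D : ℕ), ¬ 17 ∣ D → L b D = 0) (hL0 : L (k * n : ℕ) 0 = 0) :
    24 * ∑ T ∈ (range (k * n)).filter (fun T => 17 ∣ T),
      L (((k * n : ℕ) : ℤ) - 2 * T) (4 * (k * n - T) * T) =
      rr (k ^ 2 * n : ℕ) * rr n + 3 * (cc (k ^ 2 * n : ℕ) * cc n) - 8 * rr n := by
  set N : ℕ := k * n with hNdef
  set n2 : ℕ := k ^ 2 * n with hn2
  have hN0 : 0 < N := Nat.mul_pos hk hn
  have hNN : (n : ℤ) * n2 = (N : ℤ) ^ 2 := by
    rw [hNdef, hn2]; push_cast; ring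
  have hB : ((n2 : ℕ) : ℤ) = (k : ℤ) ^ 2 * n := by rw [hn2]; push_cast; ring
  have hNk : ((N : ℕ) : ℤ) = (k : ℤ) * n := by rw [hNdef]; push_cast; ring
  set P : ℤ → ℤ := fun b => 3 * (cp1 n b n2 : ℤ) + cp2 n b n2 with hP
  have f1 := card_fib isF1 (n := n) (n2 := n2) (N := N) (A := vec1 n) (B := vec1 n2)
    (fun _ => mem_vec1) (fun _ => mem_vec1) hNN (by omega)
  have f2 := card_fib isF2 (n := n) (n2 := n2) (N := N) (A := vec2 n) (B := vec2 n2)
    (fun _ => mem_vec2) (fun _ => mem_vec2) hNN (by omega)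
  have f3 : 3 * ((vec1 n).card * (vec1 n2).card : ℤ) + (vec2 n).card * (vec2 n2).card =
      ∑ b ∈ Icc (-(N : ℤ)) N, P b := by
    rw [hP, Finset.sum_add_distrib, ← Finset.mul_sum]
    unfold cp1 cp2
    rw [← f1, ← f2]
    push_cast
    ring
  have s1 : ∀ b, (cp1 n (-b) n2) = cp1 n b n2 := fun b =>
    card_neg isF1 (fun v hv => by rw [mem_vec1] at hv ⊢; rw [isF1.neg', hv]) b
  have s2 : ∀ b, (cp2 n (-b) n2) = cp2 n b n2 := fun b =>
    card_neg isF2 (fun v hv => by rw [mem_vec2] at hv ⊢; rw [isF2.neg', hv]) b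
  have s3 : ∀ b, P (-b) = P b := by
    intro b
    simp only [hP]
    rw [s1, s2]
  have e1 : cp1 n N n2 = (vec1 n).card := by
    unfold cp1
    rw [hNk, hB]
    exact card_end isF1 (fun _ => mem_vec1) (fun _ => mem_vec1)
  have e2 : cp2 n N n2 = (vec2 n).card := by
    unfold cp2
    rw [hNk, hB]
    exact card_end isF2 (fun _ => mem_vec2) (fun _ => mem_vec2)
  have e3 : P N = rr n := by
    simp only [hP]
    rw [e1, e2]
    rfl
  have hD : ∀ b : ℤ, -(N : ℤ) < b → b < N → ∃ D : ℕ, 0 < D ∧ (D : ℤ) = n * n2 - b ^ 2 := by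
    intro b h1 h2
    have hpos : 0 < (N : ℤ) ^ 2 - b ^ 2 := by
      have e : (N : ℤ) ^ 2 - b ^ 2 = (N - b) * (N + b) := by ring
      rw [e]
      exact mul_pos (by omega) (by omega)
    refine ⟨((N : ℤ) ^ 2 - b ^ 2).toNat, by omega, ?_⟩
    rw [Int.toNat_of_nonneg hpos.le, hNN]
  have m1 : ∑ b ∈ Ioo (-(N : ℤ)) N, P b =
      ∑ T ∈ (range N).filter (fun T => 0 < T ∧ 17 ∣ T), P ((N : ℤ) - 2 * T) := by
    refine sum_midR (by norm_num) (by norm_num) h17 P ?_ ?_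
    · intro b h1 h2 h3
      obtain ⟨D, hD0, hDD⟩ := hD b h1 h2
      simp only [hP]
      rw [hC b D hD0 hDD, hz17 b D, mul_zero]
      intro h
      apply h3
      rw [← hNN, ← hDD]
      exact_mod_cast h
    · intro b h1 h2 h3
      obtain ⟨D, hD0, hDD⟩ := hD b h1 h2
      simp only [hP]
      rw [hC b D hD0 hDD, hz b D h3 hD0 hDD, mul_zero]
  have m2 : ∑ T ∈ (range N).filter (fun T => 0 < T ∧ 17 ∣ T), P ((N : ℤ) - 2 * T) =
      6 * ∑ T ∈ (range N).filter (fun T => 17 ∣ T), L ((N : ℤ) - 2 * T) (4 * (N - T) * T) := by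
    rw [Finset.mul_sum]
    refine Finset.sum_subset_zero_on_sdiff ?_ ?_ ?_
    · intro T hT
      rw [Finset.mem_filter] at hT ⊢
      exact ⟨hT.1, hT.2.2⟩
    · intro T hT
      rw [Finset.mem_sdiff, Finset.mem_filter, Finset.mem_filter] at hT
      have : T = 0 := by
        by_contra h
        exact hT.2 ⟨hT.1.1, Nat.pos_of_ne_zero h, hT.1.2⟩
      subst this
      have e : (N : ℤ) - 2 * ((0 : ℕ) : ℤ) = N := by push_cast; ring
      rw [mul_zero, e, hL0, mul_zero]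
    · intro T hT
      rw [Finset.mem_filter, Finset.mem_range] at hT
      refine hC _ _ (Nat.mul_pos (by omega) hT.2.1) ?_
      rw [hNN]
      push_cast [Nat.cast_sub hT.1.le]
      ring
  rw [sum_ends N hN0, s3, e3, m1, m2] at f3
  have r1 : rr n2 * rr n + 3 * (cc n2 * cc n) =
      4 * (3 * ((vec1 n).card * (vec1 n2).card : ℤ) + (vec2 n).card * (vec2 n2).card) := by
    unfold rr cc
    ring
  rw [r1, f3]
  ring

theorem locR_odd (n D : ℕ) (h : ¬ 2 ∣ D) : locR n D = 0 := by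
  unfold locR tw
  rw [Nat.factorization_eq_zero_of_not_dvd h]
  simp

theorem locR_17 (n D : ℕ) (h : ¬ 17 ∣ D) : locR n D = 0 := by
  unfold locR
  rw [if_neg (fun h' => h h'.1)]

theorem locRE_17 (n : ℕ) (b : ℤ) (D : ℕ) (h : ¬ 17 ∣ D) : locRE n b D = 0 := by
  unfold locRE
  rw [if_neg (fun h' => h h'.1)]

theorem locRE_odd (n : ℕ) (b : ℤ) (D : ℕ) (h : ¬ (2 : ℤ) ∣ b) : locRE n b D = 0 := by
  unfold locRE
  rw [tb_odd h]
  simp

theorem bil_oddR (hPC : S_PCR) {n k : ℕ} (hn : Cr n) (hk : k = 1 ∨ k = 2) :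
    24 * ∑ T ∈ (range (k * n)).filter (fun T => 17 ∣ T), locR n (4 * (k * n - T) * T) =
      rr (k ^ 2 * n : ℕ) * rr n + 3 * (cc (k ^ 2 * n : ℕ) * cc n) - 8 * rr n := by
  obtain ⟨hs, h4, h17⟩ := id hn
  have hp : 0 < n := by omega
  refine bil_coreR hp (by omega) (Dvd.dvd.mul_left h17 k) (fun _ D => locR n D) ?_ ?_ ?_ ?_
  · intro b D hD hDD
    exact hPC n _ b D hn hD hDD
  · intro b D hb hD hDD
    refine locR_odd n D ?_
    intro h
    have h1 : (2 : ℤ) ∣ (D : ℤ) := by exact_mod_cast h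
    have e : (n : ℤ) * (k ^ 2 * n : ℕ) - b ^ 2 = ((k * n : ℕ) - b) * ((k * n : ℕ) + b) := by
      push_cast; ring
    rw [hDD, e] at h1
    rcases Int.Prime.dvd_mul' (p := 2) (by norm_num) h1 with h | h
    · push_cast at h hb; omega
    · push_cast at h hb; omega
  · intro b D h
    exact locR_17 n D h
  · simp [locR, tw]

theorem bil_evenR (hPC : S_PCRE) {n k : ℕ} (hn : Cre n) (hk : k = 1 ∨ k = 2) :
    24 * ∑ T ∈ (range (k * n)).filter (fun T => 17 ∣ T),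
      locRE n (((k * n : ℕ) : ℤ) - 2 * T) (4 * (k * n - T) * T) =
      rr (k ^ 2 * n : ℕ) * rr n + 3 * (cc (k ^ 2 * n : ℕ) * cc n) - 8 * rr n := by
  obtain ⟨hev, h17⟩ := id hn
  obtain ⟨m, rfl, hs, hm⟩ := id hev
  have hp : 0 < 4 * m := by omega
  refine bil_coreR hp (by omega) (Dvd.dvd.mul_left h17 k) (locRE (4 * m)) ?_ ?_ ?_ ?_
  · intro b D hD hDD
    refine hPC (4 * m) _ b D hn ?_ hD hDD
    exact Dvd.dvd.mul_left (dvd_mul_right 4 m) _
  · intro b D hb _ _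
    refine locRE_odd _ b D ?_
    intro h
    apply hb
    have h2 : (2 : ℤ) ∣ ((k * (4 * m) : ℕ) : ℤ) := ⟨(k * (2 * m) : ℕ), by push_cast; ring⟩
    exact dvd_sub h2 h
  · intro b D h
    exact locRE_17 (4 * m) b D h
  · unfold locRE
    rw [if_neg]
    rintro ⟨_, h⟩
    simp [Pool.Agent.Z700.hh] at h
    norm_num at h

/-- **BIL1R** -/
theorem t_BIL1R (hPC : S_PCR) : S_BIL1R := by
  intro n hn
  have h := bil_oddR hPC hn (Or.inl rfl)
  simp only [one_mul, one_pow] at h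
  unfold AAr
  rw [h]
  ring

/-- **BIL2R** -/
theorem t_BIL2R (hPC : S_PCR) : S_BIL2R := by
  intro n hn
  have h := bil_oddR hPC hn (Or.inr rfl)
  unfold AAr
  rw [h]
  push_cast
  norm_num

/-- the weights of the even norms -/
theorem locRE_sym (n N T : ℕ) (hT : T < N) (D : ℕ) :
    locRE n ((T : ℤ) - ((N - T : ℕ) : ℤ)) D = locRE n ((N : ℤ) - 2 * T) D := by
  have hb : tb ((T : ℤ) - ((N - T : ℕ) : ℤ)) = tb ((N : ℤ) - 2 * T) := by
    have e : (T : ℤ) - ((N - T : ℕ) : ℤ) = -((N : ℤ) - 2 * T) := by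
      rw [Nat.cast_sub hT.le]
      ring
    rw [e]
    unfold tb
    have q1 : (-((N : ℤ) - 2 * T)) % 4 = 0 ↔ ((N : ℤ) - 2 * T) % 4 = 0 := by omega
    have q2 : (-((N : ℤ) - 2 * T)) % 4 = 2 ↔ ((N : ℤ) - 2 * T) % 4 = 2 := by omega
    simp only [q1, q2]
  unfold locRE
  rw [hb]

theorem AAre_eq (n N : ℕ) : AAre n N = ∑ T ∈ (range N).filter (fun T => 17 ∣ T),
    locRE n ((N : ℤ) - 2 * T) (4 * (N - T) * T) := by
  unfold AAre
  refine Finset.sum_congr rfl fun T hT => ?_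
  rw [Finset.mem_filter, Finset.mem_range] at hT
  exact locRE_sym n N T hT.1 _

/-- **BIL1RE** -/
theorem t_BIL1RE (hPC : S_PCRE) : S_BIL1RE := by
  intro n hn
  have h := bil_evenR hPC hn (Or.inl rfl)
  simp only [one_mul, one_pow] at h
  rw [AAre_eq, h]
  ring

/-- **BIL2RE** -/
theorem t_BIL2RE (hPC : S_PCRE) : S_BIL2RE := by
  intro n hn
  have h := bil_evenR hPC hn (Or.inr rfl)
  rw [AAre_eq, h]
  push_cast
  norm_num

/-! ### the diagonal identities -/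

theorem WT1R (h2 : S_C2AR) {n : ℕ} (hn : Cr n) : WT n n = - AAr n n := by
  unfold WT AAr
  rw [← Finset.sum_neg_distrib]
  refine Finset.sum_congr rfl fun T hT => ?_
  rw [mem_filter, mem_range] at hT
  rcases Nat.eq_zero_or_pos T with rfl | h
  · simp [WW, locR, tw]
  · exact h2 n hn T h hT.1 hT.2

theorem WT2R (h2 : S_C2BR) {n : ℕ} (hn : Cr n) :
    WT n (2 * n) = - (AAr n (2 * n) + ep2 n * AAr n n) := by
  have e1 : WT n (2 * n) = ∑ T ∈ (range (2 * n)).filter (fun T => 17 ∣ T),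
      (- (locR n (4 * (2 * n - T) * T)) +
        - (if 2 ∣ T then ep2 n * locR n ((2 * n - T) * T) else 0)) := by
    unfold WT
    refine Finset.sum_congr rfl fun T hT => ?_
    rw [mem_filter, mem_range] at hT
    rcases Nat.eq_zero_or_pos T with rfl | h
    · simp [WW, locR, tw]
    · rw [h2 n hn T h hT.1 hT.2]
      ring
  have e2 : ∑ T ∈ (range (2 * n)).filter (fun T => 17 ∣ T),
      (if 2 ∣ T then ep2 n * locR n ((2 * n - T) * T) else 0) = ep2 n * AAr n n := by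
    rw [← Finset.sum_filter]
    unfold AAr
    rw [Finset.mul_sum]
    symm
    refine Finset.sum_nbij (fun T : ℕ => 2 * T) ?_ ?_ ?_ ?_
    · intro T hT
      rw [mem_filter, mem_range] at hT
      rw [mem_filter, mem_filter, mem_range]
      omega
    · intro T _ T' _ h
      have h' : 2 * T = 2 * T' := h
      omega
    · intro T hT
      rw [mem_coe, mem_filter, mem_filter, mem_range] at hT
      obtain ⟨⟨b1, b2⟩, k, hk⟩ := hT
      refine ⟨k, ?_, hk.symm⟩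
      rw [mem_coe, mem_filter, mem_range]
      omega
    · intro T hT
      rw [mem_filter, mem_range] at hT
      have h6 : 4 * (n - T) * T = (2 * n - 2 * T) * (2 * T) := by
        have h7 : 2 * n - 2 * T = 2 * (n - T) := by omega
        rw [h7]
        ring
      rw [h6]
  rw [e1, Finset.sum_add_distrib, Finset.sum_neg_distrib, Finset.sum_neg_distrib, e2]
  unfold AAr
  ring

theorem WTRE (h2 : S_C2RE) {n : ℕ} (hn : Cre n) (N : ℕ) (hN : N = n ∨ N = 2 * n) :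
    WTe n N = - AAre n N := by
  unfold WTe AAre
  rw [← Finset.sum_neg_distrib]
  refine Finset.sum_congr rfl fun T hT => ?_
  rw [mem_filter, mem_range] at hT
  rcases Nat.eq_zero_or_pos T with rfl | h
  · have e0 : ∀ b : ℤ, locRE n b (4 * (N - 0) * 0) = 0 := by
      intro b
      unfold locRE
      rw [if_neg]
      rintro ⟨_, h⟩
      simp [Pool.Agent.Z700.hh] at h
      norm_num at h
    rw [e0]
    simp [WWe]
  · exact h2 n hn N hN T h hT.1 hT.2

/-- **DIAGR** -/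
theorem t_DIAGR (h1a : S_C1AR) (h1b : Pool.Agent.N969.P15.S_C1B) (h2a : S_C2AR) (h2b : S_C2BR)
    (hPC : S_PCR) (hHE : S_HE2A) (hC : S_CNFR) : S_DIAGR := by
  intro n hn
  have k1 := t_BIL1R hPC n hn
  have k2 := t_BIL2R hPC n hn
  have k6 := hC n hn
  obtain ⟨k3, k4⟩ := hHE n hn.2.1
  rw [h1a n hn, WU_eq h1b hn.1 hn.2.1 (Or.inr rfl), WU_eq h1b hn.1 hn.2.1 (Or.inl rfl),
    WT1R h2a hn, WT2R h2b hn]
  rw [k3, k4] at k2
  generalize ∑ u ∈ (range n).filter (fun u => 2 * u < n), jacobiSym u n = Z at k6 ⊢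
  have k7 : 6 * (2 * (2 * (-(AAr n (2 * n) + ep2 n * AAr n n) - 3 * -AAr n n)) + 4 * Z) =
      6 * (2 * cc n ^ 2) := by
    linear_combination (3 - ep2 n) * k1 - k2 + 4 * k6
  linarith

/-- **DIAGRE** -/
theorem t_DIAGRE (h1a : S_C1ARE) (h1b : Pool.Agent.N969.P15.S_C1BE) (h2 : S_C2RE)
    (hPC : S_PCRE) (hHE : S_HE2EA) (hC : S_CNFRE) : S_DIAGRE := by
  intro n hn
  have k1 := t_BIL1RE hPC n hn
  have k2 := t_BIL2RE hPC n hn
  have k6 := hC n hn
  rw [h1a n hn, WUe_eq h1b hn.1 (Or.inr rfl), WUe_eq h1b hn.1 (Or.inl rfl),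
    WTRE h2 hn _ (Or.inr rfl), WTRE h2 hn _ (Or.inl rfl)]
  generalize ∑ u ∈ (range n).filter (fun u => 2 * u < n), chE n u = Z at k6 ⊢
  generalize AAre n n = S1 at k1 ⊢
  generalize AAre n (2 * n) = S2 at k2 ⊢
  obtain ⟨m, rfl, hs, hm⟩ := hn.1
  obtain ⟨k3, k4⟩ := hHE m hm
  have e16 : 4 * ((4 * m : ℕ) : ℤ) = 16 * (m : ℤ) := by push_cast; ring
  have e4 : ((4 * m : ℕ) : ℤ) = 4 * (m : ℤ) := by push_cast; ring
  rw [e16, e4, k3, k4] at k2
  rw [e4] at k1 k6 ⊢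
  have k7 : 6 * (2 * (2 * (-S2 - 3 * -S1)) + 4 * Z) = 6 * (2 * cc (4 * m) ^ 2) := by
    linear_combination 3 * k1 - k2 + 4 * k6
  linarith

end Pool.Agent.N973.P17
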